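import Mathlib

set_option autoImplicit false

/-!
# A vertex transitive sub scale invariant graph

The bi-infinite path (the Cayley graph of the integers for the generators 1, -1) is
sub scale invariant: for every scale `k` and every `k`-net the optimal rough isometry constant
`C_k` between the graph and its `k`-net graph is exactly `1`.
-/

namespace Pool.Agent.Results.MP_6f70ff_gt.LineSubScale

open Filter Topology

variable {V : Type}

/-- The points of `N` are pairwise at graph distance at least `k`. -/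
def Separated (G : SimpleGraph V) (k : ℕ) (N : Set V) : Prop :=
  ∀ u ∈ N, ∀ v ∈ N, u ≠ v → k ≤ G.dist u v

/-- A `k`-net: a set of points pairwise at distance at least `k`, maximal under inclusion. -/
def IsNet (G : SimpleGraph V) (k : ℕ) (N : Set V) : Prop :=
  Separated G k N ∧ ∀ M : Set V, N ⊆ M → Separated G k M → M = N

/-- The `k`-net graph: vertex set `N`, with `u ∼ v` iff `0 < d(u,v) ≤ 2k`. -/
def netGraph (G : SimpleGraph V) (k : ℕ) (N : Set V) : SimpleGraph N where
  Adj u v := 0 < G.dist (u : V) v ∧ G.dist (u : V) v ≤ 2 * k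
  symm := ⟨fun u v h => by rw [SimpleGraph.dist_comm]; exact h⟩
  loopless := ⟨fun u h => by simp at h⟩

/-- `f` is a `C`-rough isometry for the distance functions `dX`, `dY`. -/
def IsRoughIsometry {X Y : Type} (dX : X → X → ℕ) (dY : Y → Y → ℕ) (C : ℝ) (f : X → Y) : Prop :=
  (∀ x y : X, C⁻¹ * (dY (f x) (f y) : ℝ) - C ≤ (dX x y : ℝ) ∧
    (dX x y : ℝ) ≤ C * (dY (f x) (f y) : ℝ) + C) ∧
  ∀ y : Y, ∃ x : X, (dY (f x) y : ℝ) < C

/-- The constant `C_k` of a net `N`: the infimum (in `[0,∞]`, the infimum of the empty set being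
`∞`) of all `C > 0` for which there is a `C`-rough isometry from `G` to the net graph. -/
noncomputable def netConst (G : SimpleGraph V) (k : ℕ) (N : Set V) : ENNReal :=
  sInf {c : ENNReal | ∃ C : ℝ, 0 < C ∧ c = ENNReal.ofReal C ∧
    ∃ f : V → N, IsRoughIsometry G.dist (netGraph G k N).dist C f}

/-- `G` is sub scale invariant: `C_k → 1` for every choice of the `k`-nets, one for each `k`. -/
def SubScaleInvariant (G : SimpleGraph V) : Prop :=
  ∀ N : ℕ → Set V, (∀ k : ℕ, 1 ≤ k → IsNet G k (N k)) →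
    Tendsto (fun k => netConst G k (N k)) atTop (𝓝 1)

/-- `Aut(G)` acts transitively on the vertices. -/
def VertexTransitive (G : SimpleGraph V) : Prop :=
  ∀ u v : V, ∃ φ : G ≃g G, φ u = v

/-- The bi-infinite path. -/
def line : SimpleGraph ℤ where
  Adj u v := u + 1 = v ∨ v + 1 = u
  symm := ⟨fun u v h => h.symm⟩
  loopless := ⟨fun u h => by omega⟩

theorem walk_bound {u v : ℤ} (p : line.Walk u v) : |u - v| ≤ p.length := by
  induction p with
  | nil => simp
  | @cons a b c h q ih =>
    have h' : a + 1 = b ∨ b + 1 = a := h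
    rw [SimpleGraph.Walk.length_cons]
    push_cast
    rw [abs_le] at ih ⊢
    omega

theorem reach_walk (u : ℤ) (m : ℕ) : ∃ p : line.Walk u (u + m), p.length = m := by
  induction m with
  | zero => exact ⟨(SimpleGraph.Walk.nil).copy rfl (by simp), by simp⟩
  | succ m ih =>
    obtain ⟨p, hp⟩ := ih
    have h : line.Adj (u + m) (u + (m + 1 : ℕ)) := by
      left; push_cast; ring
    exact ⟨p.concat h, by rw [SimpleGraph.Walk.length_concat, hp]⟩

theorem line_connected : line.Connected := by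
  rw [SimpleGraph.connected_iff]
  refine ⟨fun u v => ?_, ⟨0⟩⟩
  rcases le_total u v with h | h
  · obtain ⟨p, -⟩ := reach_walk u (v - u).toNat
    have e : u + ((v - u).toNat : ℤ) = v := by omega
    rw [e] at p
    exact p.reachable
  · obtain ⟨p, -⟩ := reach_walk v (u - v).toNat
    have e : v + ((u - v).toNat : ℤ) = u := by omega
    rw [e] at p
    exact p.reachable.symm

theorem dist_le_sub {u v : ℤ} (h : u ≤ v) : (line.dist u v : ℤ) ≤ v - u := by
  obtain ⟨p, hp⟩ := reach_walk u (v - u).toNat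
  have e : u + ((v - u).toNat : ℤ) = v := by omega
  have h2 : line.dist u (u + ((v - u).toNat : ℤ)) ≤ (v - u).toNat :=
    (SimpleGraph.dist_le p).trans hp.le
  rw [e] at h2
  omega

theorem line_dist (u v : ℤ) : (line.dist u v : ℤ) = |u - v| := by
  apply le_antisymm
  · rcases le_total u v with h | h
    · have := dist_le_sub h
      rw [abs_of_nonpos (by omega)]
      omega
    · have := dist_le_sub h
      rw [SimpleGraph.dist_comm, abs_of_nonneg (by omega)]
      omega
  · obtain ⟨p, hp⟩ := line_connected.exists_walk_length_eq_dist u v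
    rw [← hp]
    exact walk_bound p

theorem line_transitive : VertexTransitive line := by
  intro u v
  refine ⟨{ toEquiv := Equiv.addRight (v - u), map_rel_iff' := ?_ }, ?_⟩
  · intro a b
    show ((a + (v - u)) + 1 = b + (v - u) ∨ (b + (v - u)) + 1 = a + (v - u)) ↔
      (a + 1 = b ∨ b + 1 = a)
    omega
  · show u + (v - u) = v
    ring

theorem line_locallyFinite (v : ℤ) : (line.neighborSet v).Finite := by
  apply Set.Finite.subset (Set.toFinite ({v - 1, v + 1} : Set ℤ))
  intro w hw
  have h : v + 1 = w ∨ w + 1 = v := hw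
  simp only [Set.mem_insert_iff, Set.mem_singleton_iff]
  omega

/-! ### Existence of nets -/

theorem net_exists (k : ℕ) (hk : 1 ≤ k) : ∃ N : Set ℤ, IsNet line k N := by
  refine ⟨{z : ℤ | (k : ℤ) ∣ z}, ?_, ?_⟩
  · intro u hu v hv huv
    have h1 : (k : ℤ) ∣ u - v := dvd_sub hu hv
    have h2 : (k : ℤ) ≤ |u - v| := by
      have h3 : u - v ≠ 0 := sub_ne_zero.mpr huv
      have := Int.le_of_dvd (abs_pos.mpr h3) ((dvd_abs _ _).mpr h1)
      exact this
    rw [← line_dist] at h2
    exact_mod_cast h2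
  · intro M hM hsep
    apply Set.Subset.antisymm _ hM
    intro z hz
    by_contra hzn
    have hzn' : ¬ (k : ℤ) ∣ z := hzn
    have hkz : (0 : ℤ) < k := by exact_mod_cast hk
    have h0 := Int.emod_nonneg z hkz.ne'
    have h1 := Int.emod_lt_of_pos z hkz
    have h2 : z % k ≠ 0 := fun h => hzn' (Int.dvd_of_emod_eq_zero h)
    have h3 : z - z % k ∈ M := hM (by
      show (k : ℤ) ∣ z - z % k
      exact Int.dvd_self_sub_emod)
    have h4 := hsep z hz _ h3 (by omega)
    have h5 : (k : ℤ) ≤ line.dist z (z - z % k) := by exact_mod_cast h4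
    rw [line_dist, abs_of_nonneg (by omega)] at h5
    omega

/-! ### Geometry of a net in the line -/

section Net

variable {k : ℕ} {N : Set ℤ}

theorem net_cover (hk : 1 ≤ k) (hN : IsNet line k N) (z : ℤ) :
    ∃ y ∈ N, |z - y| < k := by
  by_contra hcon
  push Not at hcon
  have hzN : z ∉ N := by
    intro h
    have := hcon z h
    simp at this
    omega
  have hM : insert z N = N := by
    apply hN.2 _ (Set.subset_insert _ _)
    intro u hu v hv huv
    have goal' : (k : ℤ) ≤ |u - v| → k ≤ line.dist u v := by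
      intro h
      rw [← line_dist] at h
      exact_mod_cast h
    rcases hu with rfl | hu
    · rcases hv with rfl | hv
      · exact absurd rfl huv
      · exact goal' (hcon v hv)
    · rcases hv with rfl | hv
      · apply goal'
        rw [abs_sub_comm]
        exact hcon u hu
      · exact hN.1 u hu v hv huv
  exact hzN (hM ▸ Set.mem_insert z N)

/-- Existence of the greatest net point at most `x + 2k`. -/
theorem exists_next (hk : 1 ≤ k) (hN : IsNet line k N) (x : ℤ) :
    ∃ y ∈ N, x < y ∧ y ≤ x + 2 * k ∧ ∀ z ∈ N, z ≤ x + 2 * k → z ≤ y := by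
  obtain ⟨y0, hy0, hy1⟩ := net_cover hk hN (x + k)
  rw [abs_lt] at hy1
  have hbdd : ∃ b : ℤ, ∀ z : ℤ, (z ∈ N ∧ z ≤ x + 2 * k) → z ≤ b := ⟨x + 2 * k, fun z h => h.2⟩
  obtain ⟨y, ⟨hyN, hy2⟩, hmax⟩ :=
    Int.exists_greatest_of_bdd hbdd ⟨y0, hy0, by omega⟩
  have h3 := hmax y0 ⟨hy0, by omega⟩
  exact ⟨y, hyN, by omega, hy2, fun z hz hz2 => hmax z ⟨hz, hz2⟩⟩

/-- Existence of the least net point at least `x - 2k`. -/
theorem exists_prev (hk : 1 ≤ k) (hN : IsNet line k N) (x : ℤ) :
    ∃ y ∈ N, y < x ∧ x - 2 * k ≤ y ∧ ∀ z ∈ N, x - 2 * k ≤ z → y ≤ z := by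
  obtain ⟨y0, hy0, hy1⟩ := net_cover hk hN (x - k)
  rw [abs_lt] at hy1
  have hbdd : ∃ b : ℤ, ∀ z : ℤ, (z ∈ N ∧ x - 2 * k ≤ z) → b ≤ z := ⟨x - 2 * k, fun z h => h.2⟩
  obtain ⟨y, ⟨hyN, hy2⟩, hmin⟩ :=
    Int.exists_least_of_bdd hbdd ⟨y0, hy0, by omega⟩
  have h3 := hmin y0 ⟨hy0, by omega⟩
  exact ⟨y, hyN, by omega, hy2, fun z hz hz2 => hmin z ⟨hz, hz2⟩⟩

/-- The greatest net point at most `x + 2k`. -/
noncomputable def nx (hk : 1 ≤ k) (hN : IsNet line k N) (x : ℤ) : ℤ :=
  (exists_next hk hN x).choose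

/-- The least net point at least `x - 2k`. -/
noncomputable def pv (hk : 1 ≤ k) (hN : IsNet line k N) (x : ℤ) : ℤ :=
  (exists_prev hk hN x).choose

variable (hk : 1 ≤ k) (hN : IsNet line k N)

theorem nx_spec (x : ℤ) : nx hk hN x ∈ N ∧ x < nx hk hN x ∧ nx hk hN x ≤ x + 2 * k ∧
    ∀ z ∈ N, z ≤ x + 2 * k → z ≤ nx hk hN x :=
  (exists_next hk hN x).choose_spec

theorem pv_spec (x : ℤ) : pv hk hN x ∈ N ∧ pv hk hN x < x ∧ x - 2 * k ≤ pv hk hN x ∧
    ∀ z ∈ N, x - 2 * k ≤ z → pv hk hN x ≤ z :=
  (exists_prev hk hN x).choose_spec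

theorem net_adj {u v : N} (h : (netGraph line k N).Adj u v) :
    (u : ℤ) ≠ v ∧ |(u : ℤ) - v| ≤ 2 * k := by
  have h1 : 0 < line.dist (u : ℤ) v ∧ line.dist (u : ℤ) v ≤ 2 * k := h
  have h2 := line_dist (u : ℤ) v
  constructor
  · intro he
    rw [he] at h1
    simp at h1
  · rw [← h2]
    exact_mod_cast h1.2

theorem adj_net {u v : N} (h : (u : ℤ) ≠ v) (h' : |(u : ℤ) - v| ≤ 2 * k) :
    (netGraph line k N).Adj u v := by
  have h2 := line_dist (u : ℤ) v
  show 0 < line.dist (u : ℤ) v ∧ line.dist (u : ℤ) v ≤ 2 * k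
  constructor
  · have h3 : 0 < |(u : ℤ) - v| := abs_pos.mpr (sub_ne_zero.mpr h)
    rw [← h2] at h3
    exact_mod_cast h3
  · rw [← h2] at h'
    exact_mod_cast h'

theorem net_dist_le_one {u v : N} (h' : |(u : ℤ) - v| ≤ 2 * k) :
    (netGraph line k N).dist u v ≤ 1 := by
  by_cases h : (u : ℤ) = v
  · have : u = v := Subtype.ext h
    rw [this]
    simp
  · have h1 := adj_net h h'
    exact (SimpleGraph.dist_eq_one_iff_adj.mpr h1).le

theorem walk_up {u v : N} (p : (netGraph line k N).Walk u v) :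
    ∀ x : ℤ, (u : ℤ) ≤ x → (v : ℤ) ≤ (nx hk hN)^[p.length] x := by
  induction p with
  | nil => intro x hx; simpa using hx
  | @cons a b c h q ih =>
    intro x hx
    have h1 := (net_adj h).2
    rw [abs_le] at h1
    have h2 := (nx_spec hk hN x).2.2.2 b b.2 (by omega)
    rw [SimpleGraph.Walk.length_cons, Function.iterate_succ_apply]
    exact ih _ h2

theorem walk_down {u v : N} (p : (netGraph line k N).Walk u v) :
    ∀ x : ℤ, x ≤ (u : ℤ) → (pv hk hN)^[p.length] x ≤ (v : ℤ) := by
  induction p with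
  | nil => intro x hx; simpa using hx
  | @cons a b c h q ih =>
    intro x hx
    have h1 := (net_adj h).2
    rw [abs_le] at h1
    have h2 := (pv_spec hk hN x).2.2.2 b b.2 (by omega)
    rw [SimpleGraph.Walk.length_cons, Function.iterate_succ_apply]
    exact ih _ h2

/-- The greedy sequence going up from `b`. -/
noncomputable def F (b : ℤ) (i : ℕ) : ℤ := (nx hk hN)^[i] b

/-- The greedy sequence going down from `b`. -/
noncomputable def B (b : ℤ) (i : ℕ) : ℤ := (pv hk hN)^[i] b

theorem F_succ (b : ℤ) (i : ℕ) : F hk hN b (i + 1) = nx hk hN (F hk hN b i) := by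
  simp only [F, Function.iterate_succ_apply']

theorem B_succ (b : ℤ) (i : ℕ) : B hk hN b (i + 1) = pv hk hN (B hk hN b i) := by
  simp only [B, Function.iterate_succ_apply']

theorem F_strictMono (b : ℤ) : StrictMono (F hk hN b) := by
  apply strictMono_nat_of_lt_succ
  intro i
  rw [F_succ]
  exact (nx_spec hk hN _).2.1

theorem B_strictAnti (b : ℤ) : StrictAnti (B hk hN b) := by
  apply strictAnti_nat_of_succ_lt
  intro i
  rw [B_succ]
  exact (pv_spec hk hN _).2.1

theorem F_mem {b : ℤ} (hb : b ∈ N) (i : ℕ) : F hk hN b i ∈ N := by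
  cases i with
  | zero => exact hb
  | succ i => rw [F_succ]; exact (nx_spec hk hN _).1

theorem B_mem {b : ℤ} (hb : b ∈ N) (i : ℕ) : B hk hN b i ∈ N := by
  cases i with
  | zero => exact hb
  | succ i => rw [B_succ]; exact (pv_spec hk hN _).1

theorem F_ge (b : ℤ) (i : ℕ) : b + i ≤ F hk hN b i := by
  induction i with
  | zero => simp [F]
  | succ i ih =>
    have := F_strictMono hk hN b (Nat.lt_succ_self i)
    simp only [Nat.succ_eq_add_one] at this
    push_cast
    omega

theorem B_le (b : ℤ) (i : ℕ) : B hk hN b i ≤ b - i := by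
  induction i with
  | zero => simp [B]
  | succ i ih =>
    have := B_strictAnti hk hN b (Nat.lt_succ_self i)
    simp only [Nat.succ_eq_add_one] at this
    push_cast
    omega

theorem crossing (b : ℤ) {u v : N} (p : (netGraph line k N).Walk u v) :
    ∀ I J : ℕ, (u : ℤ) < B hk hN b I → F hk hN b J ≤ (v : ℤ) → I + J ≤ p.length := by
  induction p with
  | nil =>
    intro I J h1 h2
    have h3 := B_le hk hN b I
    have h4 := F_ge hk hN b J
    omega
  | @cons a b' c h q ih =>
    intro I J h1 h2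
    cases I with
    | zero =>
      have h3 := walk_up hk hN (SimpleGraph.Walk.cons h q) b (by
        have : B hk hN b 0 = b := rfl
        omega)
      have h4 : F hk hN b J ≤ F hk hN b (SimpleGraph.Walk.cons h q).length := h2.trans h3
      have h5 := (F_strictMono hk hN b).le_iff_le.mp h4
      omega
    | succ I =>
      rw [B_succ] at h1
      have h3 : (a : ℤ) < B hk hN b I - 2 * k := by
        by_contra hcon
        have := (pv_spec hk hN (B hk hN b I)).2.2.2 a a.2 (by omega)
        omega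
      have h4 := (net_adj h).2
      rw [abs_le] at h4
      have h5 := ih I J (by omega) h2
      rw [SimpleGraph.Walk.length_cons]
      omega

/-- The bi-infinite greedy sequence through `b`. -/
noncomputable def A {b : ℤ} (hb : b ∈ N) (i : ℤ) : N :=
  if 0 ≤ i then ⟨F hk hN b i.toNat, F_mem hk hN hb _⟩
  else ⟨B hk hN b (-i).toNat, B_mem hk hN hb _⟩

theorem A_nonneg {b : ℤ} (hb : b ∈ N) (n : ℕ) : ((A hk hN hb n : N) : ℤ) = F hk hN b n := by
  simp [A]

theorem A_nonpos {b : ℤ} (hb : b ∈ N) (n : ℕ) : ((A hk hN hb (-n) : N) : ℤ) = B hk hN b n := by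
  cases n with
  | zero => simp [A, F, B]
  | succ n =>
    have h : ¬ (0 : ℤ) ≤ -((n + 1 : ℕ) : ℤ) := by push_cast; omega
    simp only [A, h, if_false, neg_neg, Int.toNat_natCast]

theorem A_adj {b : ℤ} (hb : b ∈ N) (i : ℤ) :
    (netGraph line k N).Adj (A hk hN hb i) (A hk hN hb (i + 1)) := by
  rcases le_or_gt 0 i with h | h
  · obtain ⟨n, rfl⟩ := Int.eq_ofNat_of_zero_le h
    have e1 := A_nonneg hk hN hb n
    have e2 := A_nonneg hk hN hb (n + 1)
    rw [F_succ] at e2
    have e3 : (((n + 1 : ℕ) : ℤ)) = (n : ℤ) + 1 := by push_cast; ring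
    rw [e3] at e2
    have h3 := nx_spec hk hN (F hk hN b n)
    apply adj_net
    · rw [e1, e2]; omega
    · rw [e1, e2, abs_le]; omega
  · obtain ⟨n, hn⟩ := Int.eq_ofNat_of_zero_le (show (0 : ℤ) ≤ -(i + 1) by omega)
    have hi : i = -((n + 1 : ℕ) : ℤ) := by push_cast; omega
    have hi2 : i + 1 = -(n : ℤ) := by omega
    have e1 := A_nonpos hk hN hb n
    have e2 := A_nonpos hk hN hb (n + 1)
    rw [← hi, B_succ] at e2
    rw [← hi2] at e1
    have h3 := pv_spec hk hN (B hk hN b n)
    apply adj_net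
    · rw [e1, e2]; omega
    · rw [e1, e2, abs_le]; omega

theorem A_walk {b : ℤ} (hb : b ∈ N) (i : ℤ) (m : ℕ) :
    ∃ p : (netGraph line k N).Walk (A hk hN hb i) (A hk hN hb (i + m)), p.length = m := by
  induction m with
  | zero => exact ⟨(SimpleGraph.Walk.nil).copy rfl (by simp), by simp⟩
  | succ m ih =>
    obtain ⟨p, hp⟩ := ih
    have h := A_adj hk hN hb (i + m)
    have e : i + (m : ℤ) + 1 = i + ((m + 1 : ℕ) : ℤ) := by push_cast; ring
    rw [e] at h
    exact ⟨p.concat h, by rw [SimpleGraph.Walk.length_concat, hp]⟩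

theorem A_dist_le {b : ℤ} (hb : b ∈ N) {i j : ℤ} (hij : i ≤ j) :
    ((netGraph line k N).dist (A hk hN hb i) (A hk hN hb j) : ℤ) ≤ j - i ∧
    (netGraph line k N).Reachable (A hk hN hb i) (A hk hN hb j) := by
  obtain ⟨p, hp⟩ := A_walk hk hN hb i (j - i).toNat
  have e : i + ((j - i).toNat : ℤ) = j := by omega
  have h2 := (SimpleGraph.dist_le p).trans hp.le
  have h3 := p.reachable
  rw [e] at h2 h3
  exact ⟨by omega, h3⟩

theorem A_dist_ge {b : ℤ} (hb : b ∈ N) {i j : ℤ} (hij : i ≤ j) :
    j - i ≤ ((netGraph line k N).dist (A hk hN hb i) (A hk hN hb j) : ℤ) + 1 := by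
  obtain ⟨p, hp⟩ := (A_dist_le hk hN hb hij).2.exists_walk_length_eq_dist
  rw [← hp]
  rcases le_or_gt 0 i with h | h
  · obtain ⟨n, rfl⟩ := Int.eq_ofNat_of_zero_le h
    obtain ⟨n', rfl⟩ := Int.eq_ofNat_of_zero_le (h.trans hij)
    have h1 := walk_up hk hN p _ (A_nonneg hk hN hb n).le
    rw [A_nonneg] at h1
    have h2 : (nx hk hN)^[p.length] (F hk hN b n) = F hk hN b (p.length + n) := by
      simp only [F, ← Function.iterate_add_apply]
    rw [h2] at h1
    have h3 := (F_strictMono hk hN b).le_iff_le.mp h1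
    omega
  · rcases le_or_gt j 0 with hj | hj
    · obtain ⟨n, hn⟩ := Int.eq_ofNat_of_zero_le (show (0 : ℤ) ≤ -i by omega)
      obtain ⟨n', hn'⟩ := Int.eq_ofNat_of_zero_le (show (0 : ℤ) ≤ -j by omega)
      have hi : i = -(n : ℤ) := by omega
      have hj' : j = -(n' : ℤ) := by omega
      subst hi hj'
      have h1 := walk_down hk hN p.reverse _ (A_nonpos hk hN hb n').ge
      rw [A_nonpos, SimpleGraph.Walk.length_reverse] at h1
      have h2 : (pv hk hN)^[p.length] (B hk hN b n') = B hk hN b (p.length + n') := by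
        simp only [B, ← Function.iterate_add_apply]
      rw [h2] at h1
      have h3 := (B_strictAnti hk hN b).le_iff_ge.mp h1
      omega
    · obtain ⟨n, hn⟩ := Int.eq_ofNat_of_zero_le (show (0 : ℤ) ≤ -(i + 1) by omega)
      obtain ⟨n', rfl⟩ := Int.eq_ofNat_of_zero_le hj.le
      have hi : i = -((n + 1 : ℕ) : ℤ) := by push_cast; omega
      have e1 := A_nonpos hk hN hb (n + 1)
      rw [← hi] at e1
      have h1 : ((A hk hN hb i : N) : ℤ) < B hk hN b n := by
        rw [e1]
        exact B_strictAnti hk hN b (Nat.lt_succ_self n)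
      have h2 := crossing hk hN b p n n' h1 (A_nonneg hk hN hb n').ge
      omega

theorem A_cover {b : ℤ} (hb : b ∈ N) (y : N) :
    ∃ i : ℤ, (netGraph line k N).dist (A hk hN hb i) y ≤ 1 := by
  rcases le_or_gt b y with h | h
  · have hex : ∃ n : ℕ, (y : ℤ) < F hk hN b n := by
      refine ⟨((y : ℤ) - b).toNat + 1, ?_⟩
      have := F_ge hk hN b (((y : ℤ) - b).toNat + 1)
      push_cast at this
      omega
    classical
    have h1 := Nat.find_spec hex
    have h2 : Nat.find hex ≠ 0 := by
      intro h0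
      rw [h0] at h1
      have : F hk hN b 0 = b := rfl
      omega
    obtain ⟨m, hm⟩ := Nat.exists_eq_succ_of_ne_zero h2
    have h3 := Nat.find_min hex (m := m) (by omega)
    rw [hm, Nat.succ_eq_add_one, F_succ] at h1
    have h4 := (nx_spec hk hN (F hk hN b m)).2.2.1
    refine ⟨(m : ℤ), net_dist_le_one ?_⟩
    rw [A_nonneg, abs_le]
    omega
  · have hex : ∃ n : ℕ, B hk hN b n ≤ (y : ℤ) := by
      refine ⟨(b - (y : ℤ)).toNat, ?_⟩
      have := B_le hk hN b (b - (y : ℤ)).toNat
      omega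
    classical
    have h1 := Nat.find_spec hex
    have h2 : Nat.find hex ≠ 0 := by
      intro h0
      rw [h0] at h1
      have : B hk hN b 0 = b := rfl
      omega
    obtain ⟨m, hm⟩ := Nat.exists_eq_succ_of_ne_zero h2
    have h3 := Nat.find_min hex (m := m) (by omega)
    rw [hm, Nat.succ_eq_add_one] at h1
    have h4 := (pv_spec hk hN (B hk hN b m)).2.2.1
    rw [← B_succ] at h4
    refine ⟨-((m + 1 : ℕ) : ℤ), net_dist_le_one ?_⟩
    rw [A_nonpos, abs_le]
    omega

theorem rough {b : ℤ} (hb : b ∈ N) {C : ℝ} (hC : 1 < C) :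
    IsRoughIsometry line.dist (netGraph line k N).dist C (A hk hN hb) := by
  have hC0 : 0 < C := by linarith
  have key : ∀ i j : ℤ,
      ((netGraph line k N).dist (A hk hN hb i) (A hk hN hb j) : ℤ) ≤ line.dist i j ∧
      (line.dist i j : ℤ) ≤ (netGraph line k N).dist (A hk hN hb i) (A hk hN hb j) + 1 := by
    intro i j
    rw [line_dist]
    rcases le_total i j with h | h
    · have h1 := (A_dist_le hk hN hb h).1
      have h2 := A_dist_ge hk hN hb h
      rw [abs_of_nonpos (by omega)]
      omega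
    · have h1 := (A_dist_le hk hN hb h).1
      have h2 := A_dist_ge hk hN hb h
      rw [abs_of_nonneg (by omega), SimpleGraph.dist_comm]
      omega
  refine ⟨fun i j => ?_, fun y => ?_⟩
  · obtain ⟨h1, h2⟩ := key i j
    have h1' : ((netGraph line k N).dist (A hk hN hb i) (A hk hN hb j) : ℝ) ≤ line.dist i j := by
      exact_mod_cast h1
    have h2' : (line.dist i j : ℝ) ≤
        (netGraph line k N).dist (A hk hN hb i) (A hk hN hb j) + 1 := by
      exact_mod_cast h2
    set d : ℝ := ((netGraph line k N).dist (A hk hN hb i) (A hk hN hb j) : ℝ) with hd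
    have hd0 : 0 ≤ d := by rw [hd]; positivity
    have hinv : C⁻¹ ≤ 1 := inv_le_one_of_one_le₀ hC.le
    constructor
    · have : C⁻¹ * d ≤ 1 * d := mul_le_mul_of_nonneg_right hinv hd0
      linarith
    · have : 1 * d ≤ C * d := mul_le_mul_of_nonneg_right hC.le hd0
      linarith
  · obtain ⟨i, hi⟩ := A_cover hk hN hb y
    refine ⟨i, ?_⟩
    have : ((netGraph line k N).dist (A hk hN hb i) y : ℝ) ≤ 1 := by exact_mod_cast hi
    linarith

theorem netConst_le (hk : 1 ≤ k) (hN : IsNet line k N) : netConst line k N ≤ 1 := by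
  obtain ⟨b, hb, -⟩ := net_cover hk hN 0
  apply ENNReal.le_of_forall_pos_le_add
  intro ε hε _
  apply sInf_le
  refine ⟨1 + ε, by positivity, ?_, A hk hN hb, rough hk hN hb ?_⟩
  · rw [ENNReal.ofReal_add zero_le_one (NNReal.coe_nonneg ε)]
    simp
  · have : (0 : ℝ) < ε := by exact_mod_cast hε
    linarith

end Net

theorem le_netConst (k : ℕ) (N : Set ℤ) : 1 ≤ netConst line k N := by
  apply le_sInf
  rintro c ⟨C, hC0, rfl, f, hf⟩
  by_contra hcon
  have hC1 : C < 1 := by
    by_contra h
    push Not at h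
    apply hcon
    rw [← ENNReal.ofReal_one]
    exact ENNReal.ofReal_le_ofReal h
  obtain ⟨M, hM⟩ := exists_nat_gt (2 / (1 - C ^ 2))
  have hpos : 0 < 1 - C ^ 2 := by nlinarith
  rw [div_lt_iff₀ hpos] at hM
  obtain ⟨h1, h2⟩ := hf.1 0 (M : ℤ)
  have hd : (line.dist 0 (M : ℤ) : ℝ) = M := by
    have := line_dist 0 (M : ℤ)
    rw [zero_sub, abs_neg, abs_of_nonneg (by omega)] at this
    exact_mod_cast this
  rw [hd] at h1 h2
  set d : ℝ := ((netGraph line k N).dist (f 0) (f (M : ℤ)) : ℝ) with hdd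
  have h3 : d ≤ C * (M + C) := by
    have h4 : C⁻¹ * d ≤ M + C := by linarith
    rwa [inv_mul_le_iff₀ hC0] at h4
  have h5 : C * d ≤ C * (C * (M + C)) := mul_le_mul_of_nonneg_left h3 hC0.le
  nlinarith [mul_pos hC0 hC0, mul_pos (mul_pos hC0 hC0) hC0]

/-- **Main result.**  There is a vertex transitive graph (infinite, connected, locally finite) that
is sub scale invariant.  The graph is the bi-infinite path on `ℤ`: it has `k`-nets for every
`k ≥ 1`, and for every `k ≥ 1` and every `k`-net `N` the constant `C_k` of its net graph is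
exactly `1`, so that `C_k → 1` for every choice of nets. -/
theorem result :
    (∃ (V : Type) (G : SimpleGraph V), Infinite V ∧ G.Connected ∧
      (∀ v, (G.neighborSet v).Finite) ∧ VertexTransitive G ∧ SubScaleInvariant G) ∧
    (∀ k : ℕ, 1 ≤ k → ∃ N : Set ℤ, IsNet line k N) ∧
    (∀ k : ℕ, 1 ≤ k → ∀ N : Set ℤ, IsNet line k N → netConst line k N = 1) := by
  have hmain : ∀ k : ℕ, 1 ≤ k → ∀ N : Set ℤ, IsNet line k N → netConst line k N = 1 :=
    fun k hk N hN => le_antisymm (netConst_le hk hN) (le_netConst k N)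
  refine ⟨⟨ℤ, line, inferInstance, line_connected, line_locallyFinite, line_transitive, ?_⟩,
    net_exists, hmain⟩
  intro N hN
  apply tendsto_const_nhds.congr'
  filter_upwards [eventually_ge_atTop 1] with k hk
  exact (hmain k hk (N k) (hN k hk)).symm

end Pool.Agent.Results.MP_6f70ff_gt.LineSubScale
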